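import Pool.Agent.Results.MP_fa7001_co.NoGapLargeOrder
import Pool.Agent.K7.H14.TG.Up2
import Pool.Agent.K7.H15.TG_UP1
import Pool.Agent.K7.H5.TG_EX

/-!
# Gaps in the j-primitive degrees of non-primitive tensors of order two

For every odd `n ≥ 11` and every `j` the set `R_j(2,n)` is not an interval: it contains none of the
`n - 9` numbers from `n ^ 2 - 6 n + 15` to `n ^ 2 - 5 n + 5`, but a smaller and a larger number.
-/

set_option autoImplicit false

namespace Pool.Agent.Results.MP_fa7001_co.GapsOrderTwo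

open Pool.Agent.Results.MP_fa7001_co.NoGapLargeOrder Pool.Agent.K7.H14.TG

/-- the digraph of a tensor of order two -/
def dig {n : ℕ} (A : Fin n → (Fin (2 - 1) → Fin n) → ℝ) : Fin n → Fin n → Prop :=
  fun v u => 0 < A u (fun _ => v)

lemma mem_S {n : ℕ} (A : Fin n → (Fin (2 - 1) → Fin n) → ℝ) (j : Fin n) (k : ℕ) (u : Fin n) :
    u ∈ S A j k ↔ Wk (dig A) k j u := by
  induction k generalizing u with
  | zero =>
    change u ∈ ({j} : Set (Fin n)) ↔ j = u
    rw [Set.mem_singleton_iff, eq_comm]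
  | succ k ih =>
    change u ∈ next A (S A j k) ↔ ∃ z, Wk (dig A) k j z ∧ dig A z u
    constructor
    · rintro ⟨i, hi, hu⟩
      refine ⟨i 0, (ih _).1 (hi 0), ?_⟩
      have : (fun _ => i 0) = i := by
        funext t
        have ht : t = 0 := by
          apply Fin.ext
          have h := t.isLt
          have h0 : ((0 : Fin (2 - 1)) : ℕ) = 0 := rfl
          rw [h0]; omega
        rw [ht]
      change 0 < A u (fun _ => i 0)
      rw [this]; exact hu
    · rintro ⟨z, hz, hu⟩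
      exact ⟨fun _ => z, fun _ => (ih _).2 hz, hu⟩

lemma full_iff {n : ℕ} (A : Fin n → (Fin (2 - 1) → Fin n) → ℝ) (j : Fin n) (k : ℕ) :
    S A j k = Set.univ ↔ ∀ u, Wk (dig A) k j u := by
  rw [Set.eq_univ_iff_forall]
  exact forall_congr' fun u => mem_S A j k u

/-- the tensor of a digraph -/
noncomputable def ten {n : ℕ} (G : Fin n → Fin n → Prop) : Fin n → (Fin (2 - 1) → Fin n) → ℝ := by
  classical
  exact fun u i => if G (i 0) u then 1 else 0

lemma dig_ten {n : ℕ} (G : Fin n → Fin n → Prop) : dig (ten G) = G := by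
  classical
  funext v u
  apply propext
  unfold dig ten
  by_cases h : G v u
  · simp [h]
  · simp [h]

lemma ten_nonneg {n : ℕ} (G : Fin n → Fin n → Prop) (u : Fin n) (i : Fin (2 - 1) → Fin n) :
    0 ≤ ten G u i := by
  classical
  unfold ten
  split_ifs <;> norm_num

theorem main (hUp1 : StUp1) (hDec : StDec) (hEx : StEx) (n : ℕ) (h11 : 11 ≤ n) (hodd : Odd n)
    (j : Fin n) :
    (∀ k, n ^ 2 - 6 * n + 15 ≤ k → k ≤ n ^ 2 - 5 * n + 5 → k ∉ R 2 n j) ∧
      (∃ a ∈ R 2 n j, a < n ^ 2 - 6 * n + 15) ∧ ∃ b ∈ R 2 n j, n ^ 2 - 5 * n + 5 < b := by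
  obtain ⟨c, rfl⟩ : ∃ c, n = c + 1 := ⟨n - 1, by omega⟩
  have hev : Even c := by
    rcases Nat.even_or_odd c with h | h
    · exact h
    · exact absurd hodd (Nat.not_odd_iff_even.2 h.add_one)
  have hK : (c + 1) ^ 2 - 5 * (c + 1) + 5 = (c - 1) * (c - 1) - (c - 1) - 1 := by
    obtain ⟨b, rfl⟩ : ∃ b, c = b + 10 := ⟨c - 10, by omega⟩
    have e1 : (b + 10 + 1) ^ 2 = b * b + 22 * b + 121 := by ring
    have e2 : b + 10 - 1 = b + 9 := by omega
    have e3 : (b + 9) * (b + 9) = b * b + 18 * b + 81 := by ring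
    rw [e1, e2, e3]
    generalize b * b = q
    omega
  have hK1 : 2 ≤ (c - 1) * (c - 1) - (c - 1) - 1 := by
    obtain ⟨b, rfl⟩ : ∃ b, c = b + 10 := ⟨c - 10, by omega⟩
    have e2 : b + 10 - 1 = b + 9 := by omega
    have e3 : (b + 9) * (b + 9) = b * b + 18 * b + 81 := by ring
    rw [e2, e3]
    generalize b * b = q
    omega
  have hJ : (c + 1) ^ 2 - 6 * (c + 1) + 15 = (c - 2) * (c - 2) + 5 + 1 := by
    obtain ⟨b, rfl⟩ : ∃ b, c = b + 10 := ⟨c - 10, by omega⟩
    have e1 : (b + 10 + 1) ^ 2 = b * b + 22 * b + 121 := by ring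
    have e2 : b + 10 - 2 = b + 8 := by omega
    have e3 : (b + 8) * (b + 8) = b * b + 16 * b + 64 := by ring
    rw [e1, e2, e3]
    generalize b * b = q
    omega
  rw [hK, hJ]
  generalize hJe : (c - 2) * (c - 2) + 5 = J
  have hJ1 : 1 ≤ J := by omega
  generalize hKe : (c - 1) * (c - 1) - (c - 1) - 1 = K at hK1
  refine ⟨?_, ?_, ?_⟩
  · rintro k hJk hkK ⟨A, hA, hnp, hjp, hg⟩
    obtain ⟨h1, h2, h3⟩ := gamma_spec.1 ⟨hjp, hg⟩
    have hfull : ∃ k, 1 ≤ k ∧ ∀ u, Wk (dig A) k j u := ⟨k, h1, (full_iff A j k).1 h2⟩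
    have hnp' : ∃ j', ∀ k, 1 ≤ k → ∃ u, ¬ Wk (dig A) k j' u := by
      by_contra hcon
      push Not at hcon
      apply hnp
      intro j'
      obtain ⟨k, hk, hk'⟩ := hcon j'
      exact ⟨k, hk, (full_iff A j' k).2 hk'⟩
    rcases red hUp1 up2 hDec (Fin (c + 1)) (dig A) j c (Fintype.card_fin _) hev (by omega) hfull
      hnp' with h | h
    · rw [hKe] at h
      exact h (persist h1 ((full_iff A j k).1 h2) K hkK)
    · rw [hJe] at h
      exact h3 J hJ1 (by omega) ((full_iff A j J).2 h)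
  · refine ⟨1, ?_, by omega⟩
    have hW1 : ∀ u, Wk (fun v _ : Fin (c + 1) => v = j) 1 j u := fun u => ⟨j, rfl, rfl⟩
    have hnp : ∀ j' : Fin (c + 1), j' ≠ j → ∀ k, 1 ≤ k → ∀ u,
        ¬ Wk (fun v _ : Fin (c + 1) => v = j) k j' u := by
      intro j' hj' k
      induction k with
      | zero => intro h; omega
      | succ k ih =>
        rintro - u ⟨z, hz, hz'⟩
        rcases Nat.eq_zero_or_pos k with h0 | h0
        · subst h0
          have : j' = z := hz
          exact hj' (this.trans hz')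
        · exact ih h0 z hz
    obtain ⟨hp, hg⟩ := (gamma_spec (K := 1) (A := ten fun v _ : Fin (c + 1) => v = j) (j := j)).2
      ⟨le_rfl, (full_iff _ _ _).2 (by rw [dig_ten]; exact hW1), fun k hk hk' => by omega⟩
    refine ⟨ten fun v _ : Fin (c + 1) => v = j, ten_nonneg _, ?_, hp, hg⟩
    intro hall
    obtain ⟨j', hj'⟩ : ∃ j' : Fin (c + 1), j' ≠ j := by
      have : Nontrivial (Fin (c + 1)) := Fin.nontrivial_iff_two_le.2 (by omega)
      exact exists_ne j
    obtain ⟨k, hk, hk'⟩ := hall j'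
    have := (full_iff _ _ _).1 hk' j
    rw [dig_ten] at this
    exact hnp j' hj' k hk j this
  · obtain ⟨G, ⟨k0, hk0, hk0'⟩, ⟨j', hj'⟩, hno⟩ := hEx c (by omega) j
    rw [hKe] at hno
    have hp : JPrimitive (ten G) j := ⟨k0, hk0, (full_iff _ _ _).2 (by rw [dig_ten]; exact hk0')⟩
    obtain ⟨h1, h2, h3⟩ := gamma_spec.1 ⟨hp, rfl⟩
    rw [full_iff, dig_ten] at h2
    refine ⟨gamma (ten G) j, ⟨ten G, ten_nonneg _, ?_, hp, rfl⟩, ?_⟩
    · intro hall
      obtain ⟨k, hk, hk'⟩ := hall j'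
      obtain ⟨u, hu⟩ := hj' k hk
      apply hu
      have := (full_iff _ _ _).1 hk' u
      rwa [dig_ten] at this
    · by_contra hle
      exact hno (persist h1 h2 K (by omega) j)

/-- For every odd `n ≥ 11` and every `j` all the `n - 9` numbers from `n ^ 2 - 6 n + 15` to
`n ^ 2 - 5 n + 5` are gaps of `R_j(2,n)`: they are not members, but some member is smaller and some
member is larger than all of them. -/
theorem result (n : ℕ) (h11 : 11 ≤ n) (hodd : Odd n) (j : Fin n) :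
    (∀ k, n ^ 2 - 6 * n + 15 ≤ k → k ≤ n ^ 2 - 5 * n + 5 → k ∉ R 2 n j) ∧
      (∃ a ∈ R 2 n j, a < n ^ 2 - 6 * n + 15) ∧ ∃ b ∈ R 2 n j, n ^ 2 - 5 * n + 5 < b :=
  main Pool.Agent.K7.H15.TGUP1.t Pool.Agent.K7.H60.TGDEC.t Pool.Agent.K7.H5.TGEX.t n h11 hodd j

end Pool.Agent.Results.MP_fa7001_co.GapsOrderTwo
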